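import Pool.Agent.K4H23.NZ.Main

/-!
# Optimal sets for the vertex boundary in Cayley graphs of `ℤ ^ d` are not nested

Question Q1 of MP_852f00_co: does every finite set `U` of nonzero vectors which generates `ℤ ^ d`
admit an ordering `w 0, w 1, ...` of `ℤ ^ d` all of whose initial segments have the smallest vertex
boundary among the sets with the same number of points?

For `d = 1` the answer is no (Briggs and Wells, 2024), but there one may ignore finitely many sets.
For every `d ≥ 2` the optimal sets for `U = {0, 1} × {0, ..., M} ^ (d - 1)` without `0`, `M > 4 (d - 1)`,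
fail to be nested at infinitely many places.

* Let `e = d - 1` and let `A` be a set with `n` points, with the slices `A_t` over the first coordinate
  `t`, and with `u` points in its projection to the other coordinates. Then
  `|A + (U ∪ {0})| ≥ ∑ g(|A_t|) + g(u)`, where `g(v) = (v ^ (1 / e) + M) ^ e` is the lower bound of
  Brunn and Minkowski for `|D + {0, ..., M} ^ e|`, `|D| = v`. As `g` is concave and `|A_t| ≤ u`, the
  right side is at least the smallest of the numbers `V_k(n) = (k + 1) g(n / k)`, `k ≥ 1`, and it is
  equal to it only if `u = n / k`.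
* `V_p` and `V_(p + 1)` are the smallest ones when `n` is near to `M ^ e p ^ (e + 1)`, first `V_p`, and
  then `V_(p + 1)`. The threshold corresponds to boxes with `p` slices of side `s`, and with `p + 1`
  slices of side `s'`, where `s - s' ≥ M / (2 e) > 2`. So there are optimal boxes `p × r₁ ^ e` and
  `(p + 1) × r₂ ^ e` with more points, but with `r₂ < r₁`.
-/

set_option autoImplicit false

namespace Pool.Agent.Results.MP_852f00_co.NoNestedOrdering

open Pool.Agent.K4H23.NV

/-- **Optimal sets are not nested, in every dimension `d ≥ 2`, also after finitely many sizes.** Let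
`e ≥ 1`, `d = e + 1`, `M > 4 e`, and let `U` be the set of the nonzero vectors of
`{0, 1} × {0, ..., M} ^ e`. It generates `ℤ ^ d`. For every `N` there are sizes `N ≤ n₁ < n₂` such that
there are no sets `S₁ ⊆ S₂` with `n₁`, `n₂` points and with the smallest vertex boundary for their
sizes; and for every sequence `w` of different points of `ℤ ^ d`, in particular for every ordering,
there are infinitely many `n` for which the first `n` points have a vertex boundary larger than the
minimum. -/
theorem result :
    ∀ e M : ℕ, 1 ≤ e → 4 * e < M →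
      ∀ U : Finset (Fin (e + 1) → ℤ), U = (Finset.Icc 0 (Fin.cons 1 fun _ => (M : ℤ))).erase 0 →
        0 ∉ U ∧ AddSubgroup.closure (U : Set (Fin (e + 1) → ℤ)) = ⊤ ∧
        (∀ N : ℕ, ∃ n₁ n₂ : ℕ, N ≤ n₁ ∧ n₁ < n₂ ∧
          ∀ S₁ S₂ : Finset (Fin (e + 1) → ℤ), S₁.card = n₁ → S₂.card = n₂ → S₁ ⊆ S₂ →
            ¬ (boundary U S₁ = minBoundary U n₁ ∧ boundary U S₂ = minBoundary U n₂)) ∧
        ∀ w : ℕ → (Fin (e + 1) → ℤ), Function.Injective w →
          {n : ℕ | minBoundary U n < boundary U ((Finset.range n).image w)}.Infinite := by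
  intro e M he hM U hU
  obtain rfl : U = (Pool.Agent.K4H23.NZ.slab e M 1).erase 0 := by
    rw [hU, Pool.Agent.K4H23.NZ.slab, Nat.cast_one]
  have two := Pool.Agent.K4H23.NZ.two_sizes he hM
  refine ⟨Finset.notMem_erase _ _, Pool.Agent.K4H23.NZ.e2 e M (by omega), two, fun w hw => ?_⟩
  have hcard : ∀ n, ((Finset.range n).image w).card = n := fun n => by
    rw [Finset.card_image_of_injective _ hw, Finset.card_range]
  rw [Set.infinite_iff_exists_gt]
  intro N
  obtain ⟨n₁, n₂, h1, h2, key⟩ := two (N + 1)
  by_contra hcon
  push Not at hcon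
  have hopt : ∀ n, N < n →
      boundary ((Pool.Agent.K4H23.NZ.slab e M 1).erase 0) ((Finset.range n).image w) =
        minBoundary ((Pool.Agent.K4H23.NZ.slab e M 1).erase 0) n := by
    intro n hn
    by_contra hne'
    have hle : minBoundary ((Pool.Agent.K4H23.NZ.slab e M 1).erase 0) n ≤
        boundary ((Pool.Agent.K4H23.NZ.slab e M 1).erase 0) ((Finset.range n).image w) :=
      Nat.sInf_le ⟨_, hcard n, rfl⟩
    have : n ≤ N := hcon n (lt_of_le_of_ne hle (Ne.symm hne'))
    omega
  exact key _ _ (hcard n₁) (hcard n₂)
    (Finset.image_subset_image (Finset.range_mono h2.le)) ⟨hopt _ (by omega), hopt _ (by omega)⟩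

end Pool.Agent.Results.MP_852f00_co.NoNestedOrdering
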