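import Pool.Agent.K4H23.NV.BoxMain
import Pool.Agent.K4H23.NV.Square

/-!
# Nested optimal sets for the vertex boundary: all boxes of the plane

Question Q1 of MP_852f00_co: does every finite set `U` of nonzero vectors which generates `ℤ ^ d`
admit an ordering `w 0, w 1, ...` of `ℤ ^ d` all of whose initial segments have the smallest vertex
boundary among the sets with the same number of points?

Here we answer the question for all boxes in the plane, `U = {x ≠ 0 : l ≤ x ≤ u}`, `l ≤ 0 ≤ u`, with
the sides `a = u 0 - l 0 ≥ 1` and `b = u 1 - l 1 ≥ 1`: such an ordering exists if and only if `a = b`;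
and for `a ≠ b` the optimal sets fail to be nested at infinitely many places.

* If `S` has `c` nonempty columns and `r` nonempty rows then its boundary is at least
  `b c + a r + a b`, and one has equality for the `c × r` box. As `|S| ≤ c r`, for every optimal set
  with `c' r'` points `b c + a r ≤ b c' + a r'` and `c r ≥ c' r'`.
* Let `a = g a'`, `b = g b'` with coprime `a' < b'` and let `m ≥ a' b'`. An optimal set with
  `a' m (b' m + 1)` points has at least `b' m + 1` rows. An optimal set with `a' b' m (m + 1)` points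
  has `b' m` rows or at least `b' (m + 1)` rows. An optimal set with `a' (m + 1) (b' (m + 1) - 1)`
  points has at most `b' (m + 1) - 1` rows. So there are no nested optimal sets of these three sizes.
* For `a = b` the initial segments of the square spiral are optimal.
-/

set_option autoImplicit false

namespace Pool.Agent.Results.MP_852f00_co.PlanarBoxes

open Pool.Agent.K4H23.NV

/-- **Nested optimal sets: all boxes of the plane.** Let `l ≤ 0 ≤ u` be vectors of `ℤ ^ 2` with
`l i < u i` for both `i`, and let `U` be the set of the nonzero vectors between `l` and `u`. It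
generates `ℤ ^ 2`. There is an ordering of `ℤ ^ 2` all of whose initial segments have the smallest
vertex boundary for their sizes if and only if the box is a square, `u 0 - l 0 = u 1 - l 1`. If it is
not a square then for every `N` there are sizes `N ≤ n₁ < n₂ < n₃` such that there are no sets
`S₁ ⊆ S₂ ⊆ S₃` with `n₁`, `n₂`, `n₃` points and with the smallest vertex boundary for their sizes; and
for every sequence `w` of different points of `ℤ ^ 2` there are infinitely many `n` for which the
first `n` points have a vertex boundary larger than the minimum. -/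
theorem result :
    ∀ l u : Fin 2 → ℤ, l ≤ 0 → 0 ≤ u → (∀ i, l i < u i) →
      ∀ U : Finset (Fin 2 → ℤ), U = (Finset.Icc l u).erase 0 →
        0 ∉ U ∧ AddSubgroup.closure (U : Set (Fin 2 → ℤ)) = ⊤ ∧
        ((∃ w : ℕ → (Fin 2 → ℤ), Function.Bijective w ∧
          ∀ n, boundary U ((Finset.range n).image w) = minBoundary U n) ↔
            u 0 - l 0 = u 1 - l 1) ∧
        (u 0 - l 0 ≠ u 1 - l 1 →
          (∀ N : ℕ, ∃ n₁ n₂ n₃ : ℕ, N ≤ n₁ ∧ n₁ < n₂ ∧ n₂ < n₃ ∧
            ∀ S₁ S₂ S₃ : Finset (Fin 2 → ℤ), S₁.card = n₁ → S₂.card = n₂ → S₃.card = n₃ →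
              S₁ ⊆ S₂ → S₂ ⊆ S₃ → ¬ (boundary U S₁ = minBoundary U n₁ ∧
                boundary U S₂ = minBoundary U n₂ ∧ boundary U S₃ = minBoundary U n₃)) ∧
          ∀ w : ℕ → (Fin 2 → ℤ), Function.Injective w →
            {n : ℕ | minBoundary U n < boundary U ((Finset.range n).image w)}.Infinite) := by
  intro l u hl hu h U hU
  obtain rfl : U = box l u := hU
  have neg : u 0 - l 0 ≠ u 1 - l 1 →
      (∀ N : ℕ, ∃ n₁ n₂ n₃ : ℕ, N ≤ n₁ ∧ n₁ < n₂ ∧ n₂ < n₃ ∧
        ∀ S₁ S₂ S₃ : Finset (Fin 2 → ℤ), S₁.card = n₁ → S₂.card = n₂ → S₃.card = n₃ →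
          S₁ ⊆ S₂ → S₂ ⊆ S₃ → ¬ (boundary (box l u) S₁ = minBoundary (box l u) n₁ ∧
            boundary (box l u) S₂ = minBoundary (box l u) n₂ ∧
            boundary (box l u) S₃ = minBoundary (box l u) n₃)) ∧
      ∀ w : ℕ → (Fin 2 → ℤ), Function.Injective w →
        {n : ℕ | minBoundary (box l u) n <
          boundary (box l u) ((Finset.range n).image w)}.Infinite := by
    intro hne
    have three : ∀ N : ℕ, ∃ n₁ n₂ n₃ : ℕ, N ≤ n₁ ∧ n₁ < n₂ ∧ n₂ < n₃ ∧
        ∀ S₁ S₂ S₃ : Finset (Fin 2 → ℤ), S₁.card = n₁ → S₂.card = n₂ → S₃.card = n₃ →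
          S₁ ⊆ S₂ → S₂ ⊆ S₃ → ¬ (boundary (box l u) S₁ = minBoundary (box l u) n₁ ∧
            boundary (box l u) S₂ = minBoundary (box l u) n₂ ∧
            boundary (box l u) S₃ = minBoundary (box l u) n₃) := by
      intro N
      obtain ⟨n₁, n₂, n₃, h1, h2, h3, key⟩ := exists_three hl hu h hne N
      refine ⟨n₁, n₂, n₃, h1, h2, h3, fun S₁ S₂ S₃ c1 c2 c3 h12 h23 ⟨o1, o2, o3⟩ => ?_⟩
      refine key S₁ S₂ S₃ c1 c2 c3 h12 h23 ⟨?_, ?_, ?_⟩
      · rw [Optimal, c1]; exact o1
      · rw [Optimal, c2]; exact o2
      · rw [Optimal, c3]; exact o3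
    refine ⟨three, fun w hw => ?_⟩
    have hcard : ∀ n, ((Finset.range n).image w).card = n := fun n => by
      rw [Finset.card_image_of_injective _ hw, Finset.card_range]
    have hle : ∀ n, minBoundary (box l u) n ≤ boundary (box l u) ((Finset.range n).image w) :=
      fun n => Nat.sInf_le ⟨_, hcard n, rfl⟩
    have hmono : ∀ {i j : ℕ}, i ≤ j → (Finset.range i).image w ⊆ (Finset.range j).image w :=
      fun hij => Finset.image_subset_image (Finset.range_mono hij)
    rw [Set.infinite_iff_exists_gt]
    intro N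
    obtain ⟨n₁, n₂, n₃, h1, h2, h3, key⟩ := three (N + 1)
    by_contra hcon
    push Not at hcon
    have hopt : ∀ n, N < n →
        boundary (box l u) ((Finset.range n).image w) = minBoundary (box l u) n := by
      intro n hn
      by_contra hne'
      have : n ≤ N := hcon n (lt_of_le_of_ne (hle n) (Ne.symm hne'))
      omega
    exact key _ _ _ (hcard n₁) (hcard n₂) (hcard n₃) (hmono h2.le) (hmono h3.le)
      ⟨hopt _ (by omega), hopt _ (by omega), hopt _ (by omega)⟩
  refine ⟨Finset.notMem_erase _ _, closure_box hl hu h, ⟨?_, ?_⟩, neg⟩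
  · rintro ⟨w, hw, hopt⟩
    by_contra hne
    obtain ⟨n, hn⟩ := ((neg hne).2 w hw.1).nonempty
    have h1 : minBoundary (box l u) n <
        boundary (box l u) ((Finset.range n).image w) := hn
    rw [hopt n] at h1
    exact lt_irrefl _ h1
  · intro heq
    have h0 := h 0
    have h1 := h 1
    exact ⟨spiral, ⟨spiral_injective, spiral_surjective⟩, fun n =>
      spiral_optimal hl hu (a := (u 0 - l 0).toNat) (by omega) (by omega) n⟩

end Pool.Agent.Results.MP_852f00_co.PlanarBoxes
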