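import Pool.Agent.K4H23.NV.Main

/-!
# Symmetric generators for which small optimal sets are not nested

Question Q1 of MP_852f00_co: does every finite set `U` of nonzero vectors which generates `ℤ ^ d`
admit an ordering `w 0, w 1, ...` of `ℤ ^ d` all of whose initial segments have the smallest vertex
boundary among the sets with the same number of points?

For every `d ≥ 2` there is a finite SYMMETRIC generating set `U` of `ℤ ^ d` for which already the
optimal sets with two and with three points are not nested: on the first axis
`U = {±2, ±3, ±4, ±6, ±7}`, and the vectors `± e i` of the other axes are added.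
-/

set_option autoImplicit false

namespace Pool.Agent.Results.MP_852f00_co.SymmetricGenerators

open Pool.Agent.K4H23.NV

/-- **Symmetric generators.** For every `d ≥ 2` there is a finite symmetric set `U` of nonzero vectors
which generates `ℤ ^ d` such that for every sequence `w` of different points of `ℤ ^ d`, in particular
for every ordering, the first two points or the first three points have a vertex boundary which is
larger than the minimum. -/
theorem result :
    ∀ d : ℕ, 2 ≤ d → ∃ U : Finset (Fin d → ℤ),
      0 ∉ U ∧ (∀ u ∈ U, -u ∈ U) ∧ AddSubgroup.closure (U : Set (Fin d → ℤ)) = ⊤ ∧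
      ∀ w : ℕ → (Fin d → ℤ), Function.Injective w → ∃ n, (n = 2 ∨ n = 3) ∧
        minBoundary U n < boundary U ((Finset.range n).image w) := by
  intro d hd
  obtain ⟨m, rfl⟩ : ∃ m, d = m + 1 := ⟨d - 1, by omega⟩
  refine ⟨U m, Finset.notMem_erase _ _, fun u hu => neg_mem_U hu, closure_U, fun w hw => ?_⟩
  rcases not_nested w hw with h | h
  · exact ⟨2, Or.inl rfl, h⟩
  · exact ⟨3, Or.inr rfl, h⟩

end Pool.Agent.Results.MP_852f00_co.SymmetricGenerators
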